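import Pool.Agent.N658.FF.Stm3

/-! # Frustration-free Hamiltonians: one step of the tree -/

open scoped BigOperators InnerProductSpace Matrix Classical ComplexOrder

noncomputable section

namespace Pool.Agent.N75.FF

open Pool.Agent.N658.FF

section nb

variable {T : Type} [Fintype T] [DecidableEq T] (adj : T → T → Prop)

lemma mem_Nb_succ (j : ℕ) (X : Finset T) (y : T) :
    y ∈ Nb adj (j + 1) X ↔ y ∈ Nb adj j X ∨ ∃ x ∈ Nb adj j X, adj x y := by
  simp [Nb]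

lemma Nb_add (i j : ℕ) (X : Finset T) : Nb adj i (Nb adj j X) = Nb adj (i + j) X := by
  induction i with
  | zero => simp [Nb]
  | succ i ih =>
    ext y
    rw [mem_Nb_succ, ih, Nat.succ_add, mem_Nb_succ]

lemma Nb_mono (X : Finset T) : Monotone fun j => Nb adj j X := by
  refine monotone_nat_of_le_succ fun j => ?_
  intro y hy
  rw [mem_Nb_succ]
  exact Or.inl hy

lemma subset_Nb (j : ℕ) (X : Finset T) : X ⊆ Nb adj j X := by
  have h := Nb_mono adj X (Nat.zero_le j)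
  exact h

lemma mem_Nb_iff (j : ℕ) (X : Finset T) (y : T) :
    y ∈ Nb adj j X ↔ ∃ x ∈ X, y ∈ Nb adj j {x} := by
  induction j generalizing y with
  | zero => simp [Nb]
  | succ j ih =>
    rw [mem_Nb_succ, ih]
    constructor
    · rintro (⟨x, hx, hy⟩ | ⟨z, hz, hzy⟩)
      · exact ⟨x, hx, (mem_Nb_succ adj j {x} y).2 (Or.inl hy)⟩
      · obtain ⟨x, hx, hxz⟩ := (ih z).1 hz
        exact ⟨x, hx, (mem_Nb_succ adj j {x} y).2 (Or.inr ⟨z, hxz, hzy⟩)⟩
    · rintro ⟨x, hx, hy⟩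
      rcases (mem_Nb_succ adj j {x} y).1 hy with hy | ⟨z, hz, hzy⟩
      · exact Or.inl ⟨x, hx, hy⟩
      · exact Or.inr ⟨z, (ih z).2 ⟨x, hx, hz⟩, hzy⟩

lemma card_Nb_le {Γ : ℝ} (h : Grow adj Γ) (j : ℕ) (X : Finset T) :
    ((Nb adj j X).card : ℝ) ≤ X.card * (|Γ| * ((j : ℝ) + 1) ^ 2) := by
  have h1 : Nb adj j X = X.biUnion fun x => Nb adj j {x} := by
    ext y
    rw [mem_Nb_iff, Finset.mem_biUnion]
  have h2 : (Nb adj j X).card ≤ ∑ x ∈ X, (Nb adj j {x}).card := by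
    rw [h1]
    exact Finset.card_biUnion_le
  have h3 : ((Nb adj j X).card : ℝ) ≤ ∑ x ∈ X, ((Nb adj j {x}).card : ℝ) := by
    exact_mod_cast h2
  refine h3.trans ?_
  rw [← nsmul_eq_mul]
  refine Finset.sum_le_card_nsmul _ _ _ fun x _ => (h x j).trans ?_
  exact mul_le_mul_of_nonneg_right (le_abs_self Γ) (by positivity)

end nb

section hil

variable {E : Type} [NormedAddCommGroup E] [InnerProductSpace ℂ E] [FiniteDimensional ℂ E]
variable {T : Type}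

lemma eps_nonneg (V : T → Submodule ℂ E) (x : T) (u : E) : 0 ≤ eps V x u := by
  unfold eps
  positivity

lemma eps_sub_le (V : T → Submodule ℂ E) (x : T) (u a : E) :
    eps V x (u - a) ≤ 2 * eps V x u + 2 * eps V x a := by
  unfold eps
  have h1 : u - a - pr (V x) (u - a) = (u - pr (V x) u) - (a - pr (V x) a) := by
    rw [map_sub]
    abel
  rw [h1]
  have h2 := parallelogram_law_with_norm ℂ (u - pr (V x) u) (a - pr (V x) a)
  nlinarith [mul_self_nonneg ‖u - pr (V x) u + (a - pr (V x) a)‖]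

lemma eps_zero (V : T → Submodule ℂ E) (x : T) {u : E} (h : u ∈ V x) : eps V x u = 0 := by
  unfold eps
  have h1 : pr (V x) u = u := Submodule.starProjection_eq_self_iff.2 h
  rw [h1]
  simp

lemma eps_add (V : T → Submodule ℂ E) (x : T) (u a : E) :
    eps V x a + eps V x (u - a) = eps V x u - 2 * (⟪a - pr (V x) a, u - a⟫_ℂ).re := by
  unfold eps
  set b := u - a with hb
  have h1 : u - pr (V x) u = (a - pr (V x) a) + (b - pr (V x) b) := by
    rw [hb, map_sub]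
    abel
  have h2 : ⟪a - pr (V x) a, pr (V x) b⟫_ℂ = 0 := by
    have h3 : a - pr (V x) a ∈ (V x)ᗮ := Submodule.sub_starProjection_mem_orthogonal a
    exact Submodule.inner_left_of_mem_orthogonal
      (Submodule.starProjection_apply_mem (V x) b) h3
  have h3 : ⟪a - pr (V x) a, b - pr (V x) b⟫_ℂ = ⟪a - pr (V x) a, b⟫_ℂ := by
    rw [inner_sub_right, h2, sub_zero]
  rw [h1, norm_add_sq (𝕜 := ℂ), h3]
  simp only [RCLike.re_eq_complex_re]
  ring

end hil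

lemma poly_bound (r : ℝ) (h0 : 0 ≤ r) (h1 : r < 1) :
    ∃ c : ℝ, 0 ≤ c ∧ ∀ K : ℕ, ((K : ℝ) + 1) ^ 2 * r ^ K ≤ c := by
  have h2 := tendsto_pow_const_mul_const_pow_of_abs_lt_one 2
    (show |r| < 1 by rw [abs_of_nonneg h0]; exact h1)
  obtain ⟨M, hM⟩ := h2.bddAbove_range
  have hM' : ∀ K : ℕ, (K : ℝ) ^ 2 * r ^ K ≤ M := fun K => hM ⟨K, rfl⟩
  have hM0 : 0 ≤ M := le_trans (by positivity) (hM' 0)
  refine ⟨2 * M + 2, by positivity, fun K => ?_⟩
  have h3 : r ^ K ≤ 1 := pow_le_one₀ h0 h1.le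
  have h4 : 0 ≤ r ^ K := pow_nonneg h0 K
  have h5 : ((K : ℝ) + 1) ^ 2 ≤ 2 * (K : ℝ) ^ 2 + 2 := by nlinarith [sq_nonneg ((K : ℝ) - 1)]
  calc ((K : ℝ) + 1) ^ 2 * r ^ K ≤ (2 * (K : ℝ) ^ 2 + 2) * r ^ K :=
        mul_le_mul_of_nonneg_right h5 h4
    _ = 2 * ((K : ℝ) ^ 2 * r ^ K) + 2 * r ^ K := by ring
    _ ≤ 2 * M + 2 := by linarith [hM' K]

lemma q_facts (g : ℕ) {Δ : ℝ} (hΔ : 0 < Δ) :
    0 ≤ Real.sqrt ((g : ℝ) ^ 2 / ((g : ℝ) ^ 2 + Δ)) ∧
      Real.sqrt ((g : ℝ) ^ 2 / ((g : ℝ) ^ 2 + Δ)) < 1 := by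
  refine ⟨Real.sqrt_nonneg _, ?_⟩
  rw [Real.sqrt_lt' one_pos, one_pow, div_lt_one (by positivity)]
  linarith

theorem step (h1 : StmTrans) (h2 : StmFar) : StmStep := by
  intro g Δ Γ hΔ
  obtain ⟨C₁, hC₁, H1⟩ := h1 g Δ Γ hΔ
  obtain ⟨C₂, ρ₂, hC₂, hρ₂, hρ₂', H2⟩ := h2 g Δ Γ hΔ
  obtain ⟨hq0, hq1⟩ := q_facts g hΔ
  set q := Real.sqrt ((g : ℝ) ^ 2 / ((g : ℝ) ^ 2 + Δ)) with hq
  have hs0 : 0 ≤ Real.sqrt q := Real.sqrt_nonneg _
  have hs1 : Real.sqrt q < 1 := by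
    rw [Real.sqrt_lt' one_pos, one_pow]
    exact hq1
  obtain ⟨c, hc0, hc⟩ := poly_bound (Real.sqrt q) hs0 hs1
  obtain ⟨D, hD⟩ : ∃ D : ℝ, D = |Γ| * ((g : ℝ) + 2) ^ 2 * c := ⟨_, rfl⟩
  have hD0 : 0 ≤ D := by rw [hD]; positivity
  obtain ⟨F, hF⟩ : ∃ F : ℝ, F = C₁ + (1 + 1 / Δ) * (2 + 2 * C₁) := ⟨_, rfl⟩
  have hF0 : 0 ≤ F := by rw [hF]; positivity
  refine ⟨1 + F * (1 + D) + 2 * C₂, max (Real.sqrt q) ρ₂, ?_, ?_, ?_, ?_⟩
  · have : 0 ≤ F * (1 + D) := by positivity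
    linarith
  · exact le_max_of_le_left hs0
  · exact max_lt hs1 hρ₂'
  intro E _ _ _ T _ _ V adj hloc hgap hgrow B X K u hu
  set a := pr (G V (B ∪ X)) u with ha
  set b := u - a with hb
  set N := Nb adj (K * (g + 1) + 1) X with hN
  set ρ := max (Real.sqrt q) ρ₂ with hρ
  have hρ0 : 0 ≤ ρ := le_max_of_le_left hs0
  have hρK : 0 ≤ ρ ^ K := pow_nonneg hρ0 K
  have hX0 : (0 : ℝ) ≤ X.card := Nat.cast_nonneg _
  have hR0 : 0 ≤ (X.card : ℝ) * ρ ^ K * ‖u‖ ^ 2 := by positivity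
  constructor
  · -- part 1
    have hNN : Nb adj (K * (g + 1)) N = Nb adj (2 * K * (g + 1) + 1) X := by
      rw [hN, Nb_add]
      congr 1
      ring
    have hsub : N ⊆ Nb adj (2 * K * (g + 1) + 1) X := by
      rw [← hNN]
      exact subset_Nb _ _ _
    have hXN : X ⊆ N := subset_Nb _ _ _
    have hA := H1 E T V adj hloc hgap hgrow (B ∪ X) N K u
    rw [hNN, ← ha] at hA
    set Su := ∑ y ∈ Nb adj (2 * K * (g + 1) + 1) X, eps V y u with hSu
    have hSu0 : 0 ≤ Su := Finset.sum_nonneg fun y _ => eps_nonneg V y u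
    have hcard : (N.card : ℝ) * q ^ K ≤ X.card * (D * ρ ^ K) := by
      have e1 := card_Nb_le adj hgrow (K * (g + 1) + 1) X
      rw [← hN] at e1
      have e2 : (((K * (g + 1) + 1 : ℕ) : ℝ) + 1) ^ 2 ≤ ((g : ℝ) + 2) ^ 2 * ((K : ℝ) + 1) ^ 2 := by
        rw [← mul_pow]
        push_cast
        have e3 : (0 : ℝ) ≤ (K : ℝ) := Nat.cast_nonneg _
        have e4 : (0 : ℝ) ≤ (g : ℝ) := Nat.cast_nonneg _
        refine pow_le_pow_left₀ (by positivity) ?_ 2
        nlinarith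
      have e3 : q ^ K = Real.sqrt q ^ K * Real.sqrt q ^ K := by
        rw [← mul_pow, Real.mul_self_sqrt hq0]
      have e4 : Real.sqrt q ^ K ≤ ρ ^ K := pow_le_pow_left₀ hs0 (le_max_left _ _) K
      have e5 : 0 ≤ Real.sqrt q ^ K := pow_nonneg hs0 K
      calc (N.card : ℝ) * q ^ K
          ≤ (X.card * (|Γ| * (((K * (g + 1) + 1 : ℕ) : ℝ) + 1) ^ 2)) * q ^ K :=
            mul_le_mul_of_nonneg_right e1 (pow_nonneg hq0 K)
        _ ≤ (X.card * (|Γ| * (((g : ℝ) + 2) ^ 2 * ((K : ℝ) + 1) ^ 2))) * q ^ K := by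
            refine mul_le_mul_of_nonneg_right ?_ (pow_nonneg hq0 K)
            refine mul_le_mul_of_nonneg_left ?_ hX0
            exact mul_le_mul_of_nonneg_left e2 (abs_nonneg _)
        _ = X.card * (|Γ| * ((g : ℝ) + 2) ^ 2 * ((((K : ℝ) + 1) ^ 2 * Real.sqrt q ^ K) *
              Real.sqrt q ^ K)) := by
            rw [e3]
            ring
        _ ≤ X.card * (|Γ| * ((g : ℝ) + 2) ^ 2 * (c * ρ ^ K)) := by
            refine mul_le_mul_of_nonneg_left ?_ hX0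
            refine mul_le_mul_of_nonneg_left ?_ (by positivity)
            exact mul_le_mul (hc K) e4 e5 hc0
        _ = X.card * (D * ρ ^ K) := by rw [hD]; ring
    have hE : (N.card : ℝ) * q ^ K * ‖u‖ ^ 2 ≤ D * (X.card * ρ ^ K * ‖u‖ ^ 2) := by
      have := mul_le_mul_of_nonneg_right hcard (sq_nonneg ‖u‖)
      calc (N.card : ℝ) * q ^ K * ‖u‖ ^ 2 ≤ X.card * (D * ρ ^ K) * ‖u‖ ^ 2 := this
        _ = D * (X.card * ρ ^ K * ‖u‖ ^ 2) := by ring
    have hB : ∑ x ∈ N, eps V x b ≤ 2 * Su + 2 * ∑ x ∈ N, eps V x a := by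
      have e1 : ∑ x ∈ N, eps V x b ≤ ∑ x ∈ N, (2 * eps V x u + 2 * eps V x a) :=
        Finset.sum_le_sum fun x _ => eps_sub_le V x u a
      rw [Finset.sum_add_distrib, ← Finset.mul_sum, ← Finset.mul_sum] at e1
      have e2 : ∑ x ∈ N, eps V x u ≤ Su :=
        Finset.sum_le_sum_of_subset_of_nonneg hsub fun y _ _ => eps_nonneg V y u
      linarith
    have haG : a ∈ G V (B ∪ X) := Submodule.starProjection_apply_mem _ u
    have hbB : ∀ x ∈ B, eps V x b = 0 := by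
      intro x hx
      refine eps_zero V x ?_
      have e1 : u ∈ V x := by
        have := hu
        simp only [G, Submodule.mem_iInf] at this
        exact this x hx
      have e2 : a ∈ V x := by
        have := haG
        simp only [G, Submodule.mem_iInf] at this
        exact this x (Finset.mem_union_left _ hx)
      exact Submodule.sub_mem _ e1 e2
    have hbn : Δ * ‖b‖ ^ 2 ≤ ∑ x ∈ N, eps V x b := by
      have e1 : b ∈ (G V (B ∪ X))ᗮ := Submodule.sub_starProjection_mem_orthogonal u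
      have e2 := hgap (B ∪ X) b e1
      have e3 : ∑ x ∈ B ∪ X, ‖b - pr (V x) b‖ ^ 2 ≤ ∑ x ∈ N, eps V x b := by
        have e4 : ∑ x ∈ B ∪ X, ‖b - pr (V x) b‖ ^ 2 = ∑ x ∈ X, eps V x b := by
          symm
          refine Finset.sum_subset Finset.subset_union_right fun x hx hx' => ?_
          rcases Finset.mem_union.1 hx with hx | hx
          · exact hbB x hx
          · exact absurd hx hx'
        rw [e4]
        exact Finset.sum_le_sum_of_subset_of_nonneg hXN fun y _ _ => eps_nonneg V y b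
      exact e2.trans e3
    have hbn' : ‖b‖ ^ 2 ≤ 1 / Δ * ∑ x ∈ N, eps V x b := by
      rw [one_div, inv_mul_eq_div, le_div_iff₀ hΔ, mul_comm]
      exact hbn
    rw [Finset.sum_add_distrib]
    set Sa := ∑ x ∈ N, eps V x a with hSa
    set Sb := ∑ x ∈ N, eps V x b with hSb
    set R := (X.card : ℝ) * ρ ^ K * ‖u‖ ^ 2 with hR
    have hSa' : Sa ≤ C₁ * (Su + D * R) :=
      hA.trans (mul_le_mul_of_nonneg_left (by linarith) hC₁.le)
    have hk : 0 ≤ 1 + 1 / Δ := by positivity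
    have hP : (1 + 1 / Δ) * Sb ≤ (1 + 1 / Δ) * (2 * Su + 2 * Sa) :=
      mul_le_mul_of_nonneg_left hB hk
    have hDR : 0 ≤ D * R := mul_nonneg hD0 hR0
    have hQ : Sa + (1 + 1 / Δ) * (2 * Su + 2 * Sa) ≤ F * (Su + D * R) := by
      have e1 : (1 + 1 / Δ) * (2 * Su + 2 * Sa) ≤
          (1 + 1 / Δ) * (2 * (Su + D * R) + 2 * (C₁ * (Su + D * R))) :=
        mul_le_mul_of_nonneg_left (by linarith) hk
      have e2 : F * (Su + D * R) = C₁ * (Su + D * R) +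
          (1 + 1 / Δ) * (2 * (Su + D * R) + 2 * (C₁ * (Su + D * R))) := by
        rw [hF]
        ring
      linarith
    have hT : F * (Su + D * R) ≤ (1 + F * (1 + D) + 2 * C₂) * (Su + R) := by
      have e1 : (1 + F * (1 + D) + 2 * C₂) * (Su + R) - F * (Su + D * R) =
          Su + R + F * D * Su + F * R + 2 * C₂ * (Su + R) := by ring
      have e2 : 0 ≤ F * D * Su := by positivity
      have e3 : 0 ≤ F * R := mul_nonneg hF0 hR0
      have e4 : 0 ≤ 2 * C₂ * (Su + R) := by positivity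
      linarith
    calc Sa + Sb + ‖b‖ ^ 2 ≤ Sa + (1 + 1 / Δ) * Sb := by linarith
      _ ≤ Sa + (1 + 1 / Δ) * (2 * Su + 2 * Sa) := by linarith
      _ ≤ F * (Su + D * R) := hQ
      _ ≤ _ := hT
  · intro w β hw hwβ
    rcases isEmpty_or_nonempty T with hT | ⟨⟨x₀⟩⟩
    · have e1 : X = ∅ := Finset.eq_empty_of_isEmpty X
      have e2 : (Finset.univ \ N : Finset T) = ∅ := Finset.eq_empty_of_isEmpty _
      rw [e2, e1]
      simp
    have hβ : 0 ≤ β := (hw x₀).trans (hwβ x₀)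
    have hfar := H2 E T V adj hloc hgap hgrow B X K u hu
    rw [← ha, ← hN] at hfar
    have e1 : ∀ x ∈ Finset.univ \ N, w x * (eps V x a + eps V x b) ≤
        w x * eps V x u + 2 * β * |(⟪a - pr (V x) a, u - a⟫_ℂ).re| := by
      intro x _
      rw [hb, eps_add, mul_sub]
      have e2 : -(w x * (2 * (⟪a - pr (V x) a, u - a⟫_ℂ).re)) ≤
          2 * β * |(⟪a - pr (V x) a, u - a⟫_ℂ).re| := by
        have e3 : -(w x * (2 * (⟪a - pr (V x) a, u - a⟫_ℂ).re)) =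
            w x * (2 * -(⟪a - pr (V x) a, u - a⟫_ℂ).re) := by ring
        rw [e3]
        calc w x * (2 * -(⟪a - pr (V x) a, u - a⟫_ℂ).re)
            ≤ w x * (2 * |(⟪a - pr (V x) a, u - a⟫_ℂ).re|) := by
              refine mul_le_mul_of_nonneg_left ?_ (hw x)
              linarith [neg_abs_le (⟪a - pr (V x) a, u - a⟫_ℂ).re]
          _ ≤ β * (2 * |(⟪a - pr (V x) a, u - a⟫_ℂ).re|) :=
              mul_le_mul_of_nonneg_right (hwβ x) (by positivity)
          _ = _ := by ring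
      linarith
    have e2 := Finset.sum_le_sum e1
    rw [Finset.sum_add_distrib, ← Finset.mul_sum] at e2
    refine e2.trans ?_
    have e3 : ρ₂ ^ K ≤ ρ ^ K := pow_le_pow_left₀ hρ₂ (le_max_right _ _) K
    have e4 : C₂ * X.card * ρ₂ ^ K * ‖u‖ ^ 2 ≤ C₂ * X.card * ρ ^ K * ‖u‖ ^ 2 := by
      refine mul_le_mul_of_nonneg_right ?_ (sq_nonneg _)
      exact mul_le_mul_of_nonneg_left e3 (by positivity)
    have e5 : 2 * β * ∑ x ∈ Finset.univ \ N, |(⟪a - pr (V x) a, u - a⟫_ℂ).re| ≤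
        2 * β * (C₂ * X.card * ρ ^ K * ‖u‖ ^ 2) :=
      mul_le_mul_of_nonneg_left (hfar.trans e4) (by positivity)
    have e6 : 2 * β * (C₂ * X.card * ρ ^ K * ‖u‖ ^ 2) ≤
        β * ((1 + F * (1 + D) + 2 * C₂) * X.card * ρ ^ K * ‖u‖ ^ 2) := by
      have e7 : β * ((1 + F * (1 + D) + 2 * C₂) * X.card * ρ ^ K * ‖u‖ ^ 2) -
          2 * β * (C₂ * X.card * ρ ^ K * ‖u‖ ^ 2) =
          β * (1 + F * (1 + D)) * (X.card * ρ ^ K * ‖u‖ ^ 2) := by ring
      have e8 : 0 ≤ β * (1 + F * (1 + D)) * (X.card * ρ ^ K * ‖u‖ ^ 2) := by positivity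
      linarith
    linarith

end Pool.Agent.N75.FF
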